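import Mathlib

/-!
# Symmetric periodic orbits of the maps `(x, y) ↦ (y, F(y) - x)`

Let `F` have coefficients in an integrally closed domain `R`, a unit as leading coefficient and
`F' ≡ 1` modulo a nonunit `ϖ`.  The coordinates of the orbit of `(t, t)` are polynomials `q n` in `t`
of degree `d ^ (n - 1)`.  If `t` is a root of `k N = q (N + 2) - q N`, a polynomial of degree
`d ^ (N + 1)`, then `(t, t)` is fixed by the iterate of order `2 N + 1`.  The derivative of `k N` is
congruent to `±1` modulo `ϖ` if `N` is not congruent to `1` modulo 3, and so `k N` has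
`d ^ (N + 1)` different roots.
-/

set_option autoImplicit false

namespace Pool.Agent.J4H36.HB

open Polynomial Function

/-- the derivatives modulo `ϖ` -/
def u : ℕ → ℤ
  | 0 => 1
  | 1 => 1
  | (n + 2) => u (n + 1) - u n

theorem u_two (n : ℕ) : u (n + 2) = u (n + 1) - u n := rfl

theorem u_period (n : ℕ) : u (n + 3) = - u n := by
  rw [u_two, u_two]; ring

theorem u_diff (n : ℕ) (h : n % 3 ≠ 1) : u (n + 2) - u n = 1 ∨ u (n + 2) - u n = -1 := by
  have key : ∀ m : ℕ, (u (3 * m) = 1 ∧ u (3 * m + 1) = 1) ∨ (u (3 * m) = -1 ∧ u (3 * m + 1) = -1) := by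
    intro m
    induction m with
    | zero => left; exact ⟨rfl, rfl⟩
    | succ m ih =>
      have h1 : u (3 * (m + 1)) = - u (3 * m) := by
        rw [show 3 * (m + 1) = 3 * m + 3 by ring, u_period]
      have h2 : u (3 * (m + 1) + 1) = - u (3 * m + 1) := by
        rw [show 3 * (m + 1) + 1 = (3 * m + 1) + 3 by ring, u_period]
      rw [h1, h2]
      rcases ih with ⟨a, b⟩ | ⟨a, b⟩
      · right; rw [a, b]; exact ⟨rfl, rfl⟩
      · left; rw [a, b]; exact ⟨by norm_num, by norm_num⟩
  have hn := Nat.div_add_mod n 3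
  have hlt : n % 3 < 3 := Nat.mod_lt _ (by norm_num)
  have h3 : n % 3 = 0 ∨ n % 3 = 2 := by omega
  rcases h3 with h3 | h3
  · have : n = 3 * (n / 3) := by omega
    rw [this, u_two]
    rcases key (n / 3) with ⟨a, b⟩ | ⟨a, b⟩ <;> rw [a, b] <;> norm_num
  · have : n = 3 * (n / 3) + 2 := by omega
    rw [this, u_two, u_two, u_two]
    rcases key (n / 3) with ⟨a, b⟩ | ⟨a, b⟩ <;> rw [a, b] <;> norm_num

section ring

variable {R : Type*} [CommRing R]

/-- the map `(x, y) ↦ (y, F(y) - x)` -/
noncomputable def hm {L : Type*} [CommRing L] [Algebra R L] (F : R[X]) (P : L × L) : L × L :=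
  (P.2, aeval P.2 F - P.1)

/-- the coordinates of the orbit of `(t, t)` as polynomials in `t` -/
noncomputable def q (F : R[X]) : ℕ → R[X]
  | 0 => X
  | 1 => X
  | (n + 2) => F.comp (q F (n + 1)) - q F n

theorem q_two (F : R[X]) (n : ℕ) : q F (n + 2) = F.comp (q F (n + 1)) - q F n := rfl

/-- `k N = q (N + 2) - q N` -/
noncomputable def k (F : R[X]) (N : ℕ) : R[X] := q F (N + 2) - q F N

theorem deriv_q {F : R[X]} {p : R} (hp : C p ∣ derivative F - 1) (n : ℕ) :
    C p ∣ derivative (q F n) - C ((u n : ℤ) : R) ∧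
      C p ∣ derivative (q F (n + 1)) - C ((u (n + 1) : ℤ) : R) := by
  induction n with
  | zero =>
    constructor
    · show C p ∣ derivative X - C (((1 : ℤ)) : R)
      simp
    · show C p ∣ derivative X - C (((1 : ℤ)) : R)
      simp
  | succ n ih =>
    refine ⟨ih.2, ?_⟩
    obtain ⟨G, hG⟩ := hp
    obtain ⟨A, hA⟩ := ih.1
    obtain ⟨B, hB⟩ := ih.2
    have hF : derivative F = 1 + C p * G := by rw [← hG]; ring
    have h1 : derivative (q F (n + 2)) =
        derivative (q F (n + 1)) * (1 + C p * G.comp (q F (n + 1))) - derivative (q F n) := by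
      rw [q_two, derivative_sub, derivative_comp, hF]
      simp
    have h2 : derivative (q F (n + 1)) = C ((u (n + 1) : ℤ) : R) + C p * B := by rw [← hB]; ring
    have h3 : derivative (q F n) = C ((u n : ℤ) : R) + C p * A := by rw [← hA]; ring
    refine ⟨B + derivative (q F (n + 1)) * G.comp (q F (n + 1)) - A, ?_⟩
    show derivative (q F (n + 2)) - C ((u (n + 2) : ℤ) : R) = _
    rw [h1, u_two, Int.cast_sub, C_sub, h3]
    have : derivative (q F (n + 1)) * (1 + C p * G.comp (q F (n + 1))) =
      C ((u (n + 1) : ℤ) : R) + C p * B +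
        C p * (derivative (q F (n + 1)) * G.comp (q F (n + 1))) := by
      rw [mul_add, mul_one]
      conv_lhs => rw [h2]
      rw [h2]; ring
    rw [this]; ring

theorem deriv_k {F : R[X]} {p : R} (hp : C p ∣ derivative F - 1) (N : ℕ) (hN : N % 3 ≠ 1) :
    ∃ (c : R) (G : R[X]), (c = 1 ∨ c = -1) ∧ derivative (k F N) = C c + C p * G := by
  obtain ⟨A, hA⟩ := (deriv_q hp N).1
  obtain ⟨B, hB⟩ := (deriv_q hp (N + 1)).2
  refine ⟨((u (N + 2) - u N : ℤ) : R), B - A, ?_, ?_⟩
  · rcases u_diff N hN with h | h <;> rw [h] <;> simp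
  · have h2 : derivative (q F (N + 2)) = C ((u (N + 2) : ℤ) : R) + C p * B := by
      rw [← hB]; ring
    have h3 : derivative (q F N) = C ((u N : ℤ) : R) + C p * A := by rw [← hA]; ring
    rw [k, derivative_sub, h2, h3, Int.cast_sub, C_sub]; ring

variable [IsDomain R]

theorem q_deg {F : R[X]} (hF : IsUnit F.leadingCoeff) {d : ℕ} (hd : 2 ≤ d) (hFd : F.natDegree = d)
    (n : ℕ) : IsUnit (q F (n + 1)).leadingCoeff ∧ (q F (n + 1)).natDegree = d ^ n ∧
      (q F n).natDegree < d ^ (n + 1) ∧ IsUnit (q F (n + 2)).leadingCoeff ∧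
      (q F (n + 2)).natDegree = d ^ (n + 1) := by
  induction n with
  | zero =>
    have h1 : IsUnit (q F 1).leadingCoeff := by
      show IsUnit (X : R[X]).leadingCoeff
      rw [leadingCoeff_X]; exact isUnit_one
    have h2 : (q F 1).natDegree = 1 := natDegree_X
    have h3 : (q F 0).natDegree < d ^ (0 + 1) := by
      show (X : R[X]).natDegree < _
      rw [natDegree_X, zero_add, pow_one]; exact hd
    have hq2 : q F 2 = F - X := by
      show F.comp X - X = F - X
      rw [comp_X]
    have hlt : (X : R[X]).natDegree < F.natDegree := by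
      rw [natDegree_X, hFd]; exact hd
    have hdeg : (X : R[X]).degree < F.degree := degree_lt_degree hlt
    refine ⟨h1, by simpa using h2, h3, ?_, ?_⟩
    · show IsUnit (q F 2).leadingCoeff
      rw [hq2, leadingCoeff_sub_of_degree_lt hdeg]; exact hF
    · show (q F 2).natDegree = _
      rw [hq2, natDegree_sub_eq_left_of_natDegree_lt hlt, hFd]; simp
  | succ n ih =>
    obtain ⟨i1, i2, i3, i4, i5⟩ := ih
    have hne : (q F (n + 2)).natDegree ≠ 0 := by
      rw [i5]; positivity
    have hc : IsUnit (F.comp (q F (n + 2))).leadingCoeff := by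
      rw [leadingCoeff_comp hne]
      exact hF.mul (i4.pow _)
    have hcd : (F.comp (q F (n + 2))).natDegree = d ^ (n + 2) := by
      rw [natDegree_comp, hFd, i5]; ring
    have hpow : d ^ n < d ^ (n + 2) := Nat.pow_lt_pow_right (by omega) (by omega)
    have hlt : (q F (n + 1)).natDegree < (F.comp (q F (n + 2))).natDegree := by
      rw [hcd, i2]; exact hpow
    refine ⟨i4, i5, ?_, ?_, ?_⟩
    · rw [i2]; exact hpow
    · rw [q_two, leadingCoeff_sub_of_degree_lt (degree_lt_degree hlt)]; exact hc
    · rw [q_two, natDegree_sub_eq_left_of_natDegree_lt hlt, hcd]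

theorem k_deg {F : R[X]} (hF : IsUnit F.leadingCoeff) {d : ℕ} (hd : 2 ≤ d) (hFd : F.natDegree = d)
    (N : ℕ) : IsUnit (k F N).leadingCoeff ∧ (k F N).natDegree = d ^ (N + 1) := by
  obtain ⟨-, -, i3, i4, i5⟩ := q_deg hF hd hFd N
  have hlt : (q F N).natDegree < (q F (N + 2)).natDegree := by rw [i5]; exact i3
  constructor
  · rw [k, leadingCoeff_sub_of_degree_lt (degree_lt_degree hlt)]; exact i4
  · rw [k, natDegree_sub_eq_left_of_natDegree_lt hlt, i5]

end ring

section field

variable {R : Type*} [CommRing R] [IsDomain R] {L : Type*} [Field L] [Algebra R L]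

theorem integral_of_root {G : R[X]} (hG : IsUnit G.leadingCoeff) (t : L) (ht : aeval t G = 0) :
    IsIntegral R t := by
  obtain ⟨v, hv⟩ := hG
  refine ⟨C (↑v⁻¹ : R) * G, ?_, ?_⟩
  · rw [Monic, leadingCoeff_mul, leadingCoeff_C, ← hv]
    simp
  · rw [← aeval_def, map_mul, ht, mul_zero]

theorem simple_root [IsIntegrallyClosed R] {K : Type*} [Field K] [Algebra R K] [IsFractionRing R K]
    [Algebra K L] [IsScalarTower R K L] {F : R[X]} (hF : IsUnit F.leadingCoeff) {d : ℕ}
    (hd : 2 ≤ d) (hFd : F.natDegree = d) {p : R} (hp1 : ¬ IsUnit p)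
    (hp : C p ∣ derivative F - 1) (N : ℕ) (hN : N % 3 ≠ 1) (t : L)
    (ht : aeval t (k F N) = 0) : aeval t (derivative (k F N)) ≠ 0 := by
  intro h0
  obtain ⟨c, G, hc, hG⟩ := deriv_k hp N hN
  rw [hG, map_add, map_mul, aeval_C, aeval_C] at h0
  have hint : IsIntegral R t := integral_of_root (k_deg hF hd hFd N).1 t ht
  have hw : IsIntegral R (aeval t G) :=
    IsIntegral.of_mem_of_fg (Algebra.adjoin R {t}) hint.fg_adjoin_singleton _
      (aeval_mem_adjoin_singleton R t (p := G))
  have hc2 : c * c = 1 := by rcases hc with rfl | rfl <;> ring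
  have h2 : algebraMap R L p * aeval t G = - algebraMap R L c := by linear_combination h0
  have hpne : p ≠ 0 := by
    rintro rfl
    rw [map_zero, zero_mul] at h2
    have h3 : algebraMap R L c = 0 := neg_eq_zero.1 h2.symm
    have h4 : algebraMap R L (c * c) = 0 := by rw [map_mul, h3, mul_zero]
    rw [hc2, map_one] at h4
    exact one_ne_zero h4
  have hpK : algebraMap R K p ≠ 0 := by
    intro h
    exact hpne ((IsFractionRing.injective R K) (by rw [h, map_zero]))
  have hw2 : aeval t G = algebraMap K L (-(algebraMap R K c) / algebraMap R K p) := by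
    rw [map_div₀, map_neg, ← IsScalarTower.algebraMap_apply, ← IsScalarTower.algebraMap_apply]
    rw [eq_div_iff]
    · linear_combination h2
    · rw [IsScalarTower.algebraMap_apply R K L]
      intro h
      exact hpK ((algebraMap K L).injective (by rw [h, map_zero]))
  rw [hw2] at hw
  have hw3 : IsIntegral R (-(algebraMap R K c) / algebraMap R K p) :=
    (isIntegral_algebraMap_iff (algebraMap K L).injective).1 hw
  obtain ⟨z, hz⟩ := IsIntegrallyClosed.isIntegral_iff.1 hw3
  have hz3 : algebraMap R K z * algebraMap R K p = -(algebraMap R K c) := by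
    rw [hz]; field_simp
  have hz4 : z * p = - c := by
    apply IsFractionRing.injective R K
    rw [map_mul, hz3, map_neg]
  apply hp1
  refine IsUnit.of_mul_eq_one (-(c * z)) ?_
  linear_combination -c * hz4 + hc2

/-! ### the dynamics -/

theorem iter_coord (F : R[X]) (t : L) (n : ℕ) :
    (hm F)^[n] (t, t) = (aeval t (q F n), aeval t (q F (n + 1))) := by
  induction n with
  | zero =>
    show (t, t) = (aeval t X, aeval t X)
    rw [aeval_X]
  | succ n ih =>
    rw [iterate_succ_apply', ih]
    show (aeval t (q F (n + 1)), aeval (aeval t (q F (n + 1))) F - aeval t (q F n)) = _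
    rw [q_two, map_sub, aeval_comp]

theorem hm_inj (F : R[X]) : Function.Injective (hm (L := L) F) := by
  rintro ⟨a, b⟩ ⟨c, e⟩ h
  have h1 : b = e := congrArg Prod.fst h
  have h2 : aeval b F - a = aeval e F - c := congrArg Prod.snd h
  subst h1
  have h3 : a = c := by linear_combination -h2
  rw [h3]

theorem hm_swap (F : R[X]) (P : L × L) : hm F (hm F P).swap = P.swap := by
  show ((P.2 : L), aeval P.2 F - (aeval P.2 F - P.1)) = (P.2, P.1)
  rw [sub_sub_cancel]

theorem iter_swap (F : R[X]) (n : ℕ) (P : L × L) : (hm F)^[n] ((hm F)^[n] P).swap = P.swap := by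
  induction n generalizing P with
  | zero => rfl
  | succ n ih =>
    rw [iterate_succ_apply' (hm F) n P, iterate_succ_apply (hm F) n, hm_swap]
    exact ih P

/-- two symmetric points on one orbit -/
theorem diag_diag (F : R[X]) (j : ℕ) (a b : L) (h : (hm F)^[j] (a, a) = (b, b)) :
    (hm F)^[2 * j] (a, a) = (a, a) := by
  have h1 := iter_swap F j (a, a)
  rw [h] at h1
  have h2 : (hm F)^[j] (b, b) = (a, a) := h1
  rw [two_mul, iterate_add_apply, h, h2]

theorem odd_of_root (F : R[X]) (N : ℕ) (t : L) (h : aeval t (k F N) = 0) :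
    (hm F)^[2 * N + 1] (t, t) = (t, t) := by
  have h1 : (hm F)^[N + 1] (t, t) = ((hm F)^[N] (t, t)).swap := by
    rw [iter_coord, iter_coord]
    have : aeval t (q F (N + 2)) = aeval t (q F N) := by
      rw [k, map_sub] at h
      exact sub_eq_zero.1 h
    show (aeval t (q F (N + 1)), aeval t (q F (N + 2))) = _
    rw [this]; rfl
  rw [show 2 * N + 1 = N + (N + 1) by ring, iterate_add_apply, h1, iter_swap]
  rfl

theorem root_of_odd (F : R[X]) (N : ℕ) (t : L) (h : (hm F)^[2 * N + 1] (t, t) = (t, t)) :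
    aeval t (k F N) = 0 := by
  rw [show 2 * N + 1 = N + (N + 1) by ring, iterate_add_apply] at h
  have h1 := iter_swap F N (t, t)
  have h2 : (hm F)^[N + 1] (t, t) = ((hm F)^[N] (t, t)).swap :=
    (hm_inj F).iterate N (h.trans h1.symm)
  rw [iter_coord, iter_coord] at h2
  have h3 : aeval t (q F (N + 2)) = aeval t (q F N) := congrArg Prod.snd h2
  rw [k, map_sub, h3, sub_self]

theorem inj_pairs (F : R[X]) (N : ℕ) (s t : L) (i j : ℕ)
    (hs : minimalPeriod (hm F) (s, s) = 2 * N + 1) (ht : minimalPeriod (hm F) (t, t) = 2 * N + 1)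
    (hi : i < 2 * N + 1) (hj : j < 2 * N + 1) (h : (hm F)^[i] (t, t) = (hm F)^[j] (s, s)) :
    t = s ∧ i = j := by
  have key : ∀ (a b : L) (i j : ℕ), minimalPeriod (hm F) (b, b) = 2 * N + 1 → j < 2 * N + 1 →
      i ≤ j → (hm F)^[i] (a, a) = (hm F)^[j] (b, b) → a = b ∧ i = j := by
    intro a b i j hb hj hij h
    obtain ⟨e, rfl⟩ := Nat.exists_eq_add_of_le hij
    rw [iterate_add_apply] at h
    have h1 := (hm_inj F).iterate i h
    have h2 := diag_diag F e b a h1.symm
    have h3 : minimalPeriod (hm F) (b, b) ∣ 2 * e := IsPeriodicPt.minimalPeriod_dvd h2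
    rw [hb] at h3
    have h4 : 2 * N + 1 ∣ e := by
      have : Nat.Coprime (2 * N + 1) 2 := by
        rw [Nat.coprime_two_right]
        exact ⟨N, rfl⟩
      exact this.dvd_of_dvd_mul_left h3
    have h5 : e = 0 := Nat.eq_zero_of_dvd_of_lt h4 (by omega)
    subst h5
    have h6 : (a, a) = (b, b) := h1
    exact ⟨congrArg Prod.fst h6, rfl⟩
  rcases le_total i j with hij | hij
  · exact key t s i j hs hj hij h
  · obtain ⟨h1, h2⟩ := key s t j i ht hi hij h.symm
    exact ⟨h1.symm, h2.symm⟩

/-- the roots of `k F N` -/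
noncomputable def T (L : Type*) [Field L] [Algebra R L] [DecidableEq L] (F : R[X]) (N : ℕ) :
    Finset L :=
  ((k F N).map (algebraMap R L)).roots.toFinset

theorem map_deg {G : R[X]} (hG : IsUnit G.leadingCoeff) :
    (G.map (algebraMap R L)).natDegree = G.natDegree ∧ G.map (algebraMap R L) ≠ 0 := by
  have h1 : algebraMap R L G.leadingCoeff ≠ 0 := (hG.map (algebraMap R L)).ne_zero
  refine ⟨natDegree_map_of_leadingCoeff_ne_zero _ h1, ?_⟩
  intro h
  apply h1
  have h2 := coeff_map (algebraMap R L) (p := G) G.natDegree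
  rw [h, coeff_zero] at h2
  exact h2.symm

variable {F : R[X]} (hF : IsUnit F.leadingCoeff) {d : ℕ} (hd : 2 ≤ d) (hFd : F.natDegree = d)
include hF hd hFd

theorem mem_T [DecidableEq L] (N : ℕ) (t : L) : t ∈ T L F N ↔ aeval t (k F N) = 0 := by
  have hm := (map_deg (L := L) (k_deg hF hd hFd N).1).2
  rw [T, Multiset.mem_toFinset, mem_roots hm, IsRoot, eval_map_algebraMap]

theorem card_T_le [DecidableEq L] (N : ℕ) : (T L F N).card ≤ d ^ (N + 1) := by
  have hm := k_deg hF hd hFd N
  refine (Multiset.toFinset_card_le _).trans ?_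
  refine (card_roots' _).trans ?_
  rw [(map_deg hm.1).1, hm.2]

theorem card_T [IsIntegrallyClosed R] (K : Type*) [Field K] [Algebra R K] [IsFractionRing R K]
    [Algebra K L] [IsScalarTower R K L] [IsAlgClosed L] [DecidableEq L] {p : R}
    (hp1 : ¬ IsUnit p) (hp : C p ∣ derivative F - 1) (N : ℕ)
    (hN : N % 3 ≠ 1) : (T L F N).card = d ^ (N + 1) := by
  have hm := k_deg hF hd hFd N
  have hmm := map_deg (L := L) hm.1
  have hnd : ((k F N).map (algebraMap R L)).roots.Nodup := by
    rw [Multiset.nodup_iff_count_le_one]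
    intro t
    rw [count_roots]
    by_contra hcon
    push Not at hcon
    obtain ⟨h1, h2⟩ := (one_lt_rootMultiplicity_iff_isRoot hmm.2).1 hcon
    have h3 : aeval t (k F N) = 0 := by
      rw [IsRoot, eval_map_algebraMap] at h1; exact h1
    have h4 : aeval t (derivative (k F N)) = 0 := by
      rw [IsRoot, derivative_map, eval_map_algebraMap] at h2; exact h2
    exact simple_root (K := K) hF hd hFd hp1 hp N hN t h3 h4
  rw [T, Multiset.toFinset_card_of_nodup hnd]
  have := splits_iff_card_roots.1 (IsAlgClosed.splits ((k F N).map (algebraMap R L)))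
  rw [this, hmm.1, hm.2]

/-- the roots with minimal period `2 N + 1` -/
theorem card_good [IsIntegrallyClosed R] (K : Type*) [Field K] [Algebra R K] [IsFractionRing R K]
    [Algebra K L] [IsScalarTower R K L] [IsAlgClosed L] [DecidableEq L] {p : R}
    (hp1 : ¬ IsUnit p) (hp : C p ∣ derivative F - 1) (N : ℕ) (hN : N % 3 ≠ 1) :
    d ^ (N + 1) ≤ ((T L F N).filter fun t => minimalPeriod (hm F) (t, t) = 2 * N + 1).card +
      2 * d ^ ((N + 2) / 3) := by
  set A := (T L F N).filter fun t => minimalPeriod (hm F) (t, t) = 2 * N + 1 with hA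
  set Bd := (Finset.range ((N + 2) / 3)).biUnion fun M => T L F M with hBd
  have hsub : T L F N ⊆ A ∪ Bd := by
    intro t ht
    by_cases hmp : minimalPeriod (hm F) (t, t) = 2 * N + 1
    · exact Finset.mem_union_left _ (Finset.mem_filter.2 ⟨ht, hmp⟩)
    · apply Finset.mem_union_right
      have h1 : (hm F)^[2 * N + 1] (t, t) = (t, t) :=
        odd_of_root F N t ((mem_T hF hd hFd N t).1 ht)
      have h2 : minimalPeriod (hm F) (t, t) ∣ 2 * N + 1 := IsPeriodicPt.minimalPeriod_dvd h1
      obtain ⟨c, hc⟩ := h2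
      have hc1 : c ≠ 1 := by
        rintro rfl
        exact hmp (by rw [hc, mul_one])
      have hc0 : c ≠ 0 := by
        rintro rfl
        simp at hc
      have hoddc : Odd (minimalPeriod (hm F) (t, t) * c) := hc ▸ ⟨N, rfl⟩
      rw [Nat.odd_mul] at hoddc
      obtain ⟨⟨M, hM⟩, hoc⟩ := hoddc
      have hc3 : 3 ≤ c := by
        obtain ⟨e, he⟩ := hoc
        omega
      have hle : 3 * (2 * M + 1) ≤ 2 * N + 1 := by
        rw [hc, hM]
        calc 3 * (2 * M + 1) ≤ c * (2 * M + 1) := Nat.mul_le_mul_right _ hc3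
          _ = (2 * M + 1) * c := mul_comm _ _
      rw [hBd, Finset.mem_biUnion]
      refine ⟨M, Finset.mem_range.2 (by omega), ?_⟩
      rw [mem_T hF hd hFd]
      apply root_of_odd
      rw [← hM]
      exact iterate_minimalPeriod
  have h1 : d ^ (N + 1) ≤ A.card + Bd.card := by
    rw [← card_T (L := L) hF hd hFd K hp1 hp N hN]
    exact (Finset.card_le_card hsub).trans (Finset.card_union_le _ _)
  have h2 : Bd.card ≤ ∑ M ∈ Finset.range ((N + 2) / 3), d ^ (M + 1) :=
    Finset.card_biUnion_le.trans (Finset.sum_le_sum fun M _ => card_T_le hF hd hFd M)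
  have h3 : ∀ m : ℕ, ∑ M ∈ Finset.range m, d ^ (M + 1) ≤ 2 * d ^ m := by
    intro m
    induction m with
    | zero => simp
    | succ m ih =>
      rw [Finset.sum_range_succ]
      calc _ ≤ 2 * d ^ m + d ^ (m + 1) := Nat.add_le_add_right ih _
        _ ≤ d * d ^ m + d ^ (m + 1) := Nat.add_le_add_right (Nat.mul_le_mul_right _ hd) _
        _ = 2 * d ^ (m + 1) := by ring
  exact h1.trans (Nat.add_le_add_left (h2.trans (h3 _)) _)

/-- many points of minimal period `2 N + 1` with coordinates in the ring generated by a root -/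
theorem exists_points [IsIntegrallyClosed R] (K : Type*) [Field K] [Algebra R K]
    [IsFractionRing R K] [Algebra K L] [IsScalarTower R K L] [IsAlgClosed L] {p : R}
    (hp1 : ¬ IsUnit p) (hp : C p ∣ derivative F - 1) (N : ℕ) (hN : N % 3 ≠ 1) :
    ∃ S : Finset (L × L), (2 * N + 1) * d ^ (N + 1) ≤ S.card + (2 * N + 1) * (2 * d ^ ((N + 2) / 3)) ∧
      ∀ P ∈ S, minimalPeriod (hm F) P = 2 * N + 1 ∧ ∃ t : L, aeval t (k F N) = 0 ∧ ∃ G H : R[X],
        P = (aeval t G, aeval t H) := by
  classical
  set A := (T L F N).filter fun t => minimalPeriod (hm F) (t, t) = 2 * N + 1 with hA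
  let g : L × ℕ → L × L := fun a => (hm F)^[a.2] (a.1, a.1)
  refine ⟨(A ×ˢ Finset.range (2 * N + 1)).image g, ?_, ?_⟩
  · rw [Finset.card_image_of_injOn, Finset.card_product, Finset.card_range, mul_comm A.card,
      ← mul_add]
    · exact Nat.mul_le_mul_left _ (card_good hF hd hFd K hp1 hp N hN)
    · rintro ⟨t, i⟩ h1 ⟨s, j⟩ h2 h
      rw [Finset.mem_coe, Finset.mem_product, Finset.mem_filter, Finset.mem_range] at h1 h2
      obtain ⟨h3, h4⟩ := inj_pairs F N s t i j h2.1.2 h1.1.2 h1.2 h2.2 h
      rw [h3, h4]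
  · intro P hP
    obtain ⟨⟨t, i⟩, h1, rfl⟩ := Finset.mem_image.1 hP
    rw [Finset.mem_product, Finset.mem_filter] at h1
    obtain ⟨⟨h2, h3⟩, -⟩ := h1
    refine ⟨?_, t, (mem_T hF hd hFd N t).1 h2, q F i, q F (i + 1), iter_coord F t i⟩
    have hper : (t, t) ∈ periodicPts (hm F) := by
      apply minimalPeriod_pos_iff_mem_periodicPts.1
      rw [h3]; omega
    show minimalPeriod (hm F) ((hm F)^[i] (t, t)) = 2 * N + 1
    rw [minimalPeriod_apply_iterate hper, h3]

/-- the degree over `K` of the field generated by the coordinates -/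
theorem degree_le (K : Type*) [Field K] [Algebra R K] [Algebra K L] [IsScalarTower R K L] (N : ℕ)
    (t : L) (ht : aeval t (k F N) = 0) (G H : R[X]) :
    Module.finrank K (IntermediateField.adjoin K {aeval t G, aeval t H}) ≤ d ^ (N + 1) := by
  have hm := k_deg hF hd hFd N
  have hmm := map_deg (L := K) hm.1
  have h0 : aeval t ((k F N).map (algebraMap R K)) = 0 := by
    rw [aeval_map_algebraMap]; exact ht
  have hint : IsIntegral K t := (integral_of_root hm.1 t ht).tower_top
  have hmem : ∀ G : R[X], aeval t G ∈ IntermediateField.adjoin K {t} := by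
    intro G
    have h1 : aeval t G = aeval t (G.map (algebraMap R K)) := by rw [aeval_map_algebraMap]
    rw [h1]
    exact IntermediateField.algebra_adjoin_le_adjoin K {t} (aeval_mem_adjoin_singleton K t)
  have hle : IntermediateField.adjoin K {aeval t G, aeval t H} ≤ IntermediateField.adjoin K {t} := by
    rw [IntermediateField.adjoin_le_iff]
    rintro x (rfl | rfl)
    · exact hmem G
    · exact hmem H
  have hfin : FiniteDimensional K (IntermediateField.adjoin K {t}) :=
    IntermediateField.adjoin.finiteDimensional hint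
  calc Module.finrank K (IntermediateField.adjoin K {aeval t G, aeval t H})
      ≤ Module.finrank K (IntermediateField.adjoin K {t}) :=
        LinearMap.finrank_le_finrank_of_injective (f := (IntermediateField.inclusion hle).toLinearMap)
          (IntermediateField.inclusion_injective hle)
    _ = (minpoly K t).natDegree := IntermediateField.adjoin.finrank hint
    _ ≤ ((k F N).map (algebraMap R K)).natDegree :=
        natDegree_le_of_dvd (minpoly.dvd K t h0) hmm.2
    _ = d ^ (N + 1) := by rw [hmm.1, hm.2]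

end field

end Pool.Agent.J4H36.HB
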