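import Pool.Agent.J4H36.HB.Basic

/-!
# Valuations and integral polynomials
-/

set_option autoImplicit false

namespace Pool.Agent.J4H36.HB

open Polynomial Function NumberField IsDedekindDomain

/-- the points of `exists_points` with the bound for the degrees -/
theorem general {R K L : Type*} [CommRing R] [IsDomain R] [IsIntegrallyClosed R] [Field K]
    [Algebra R K] [IsFractionRing R K] [Field L] [Algebra R L] [Algebra K L] [IsScalarTower R K L]
    [IsAlgClosed L] {F : R[X]} (hF : IsUnit F.leadingCoeff) {d : ℕ} (hd : 2 ≤ d)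
    (hFd : F.natDegree = d) {p : R} (hp1 : ¬ IsUnit p) (hp : C p ∣ derivative F - 1) (n : ℕ)
    (hn1 : 1 ≤ n) (hn : n % 3 ≠ 2) :
    ∃ S : Finset (L × L), (2 * n - 1) * d ^ n ≤ S.card + (2 * n - 1) * (2 * d ^ ((n + 1) / 3)) ∧
      ∀ P ∈ S, minimalPeriod (hm F) P = 2 * n - 1 ∧
        Module.finrank K (IntermediateField.adjoin K {P.1, P.2}) ≤ d ^ n := by
  obtain ⟨N, rfl⟩ : ∃ N, n = N + 1 := ⟨n - 1, by omega⟩
  obtain ⟨S, h1, h2⟩ := exists_points (L := L) hF hd hFd K hp1 hp N (by omega)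
  have h3 : 2 * (N + 1) - 1 = 2 * N + 1 := by omega
  rw [h3]
  refine ⟨S, h1, ?_⟩
  intro P hP
  obtain ⟨h4, t, ht, G, H, rfl⟩ := h2 P hP
  exact ⟨h4, degree_le hF hd hFd K N t ht G H⟩

theorem general_val {K L : Type*} [Field K] [NumberField K] [Field L] [Algebra K L] [IsAlgClosed L]
    (v : HeightOneSpectrum (𝓞 K)) (F : K[X]) {d : ℕ} (hd : 2 ≤ d) (hFd : F.natDegree = d)
    (h1 : ∀ i, v.valuation K (F.coeff i) ≤ 1) (h2 : v.valuation K F.leadingCoeff = 1)
    (h3 : ∀ i, v.valuation K ((derivative F - 1).coeff i) < 1) (n : ℕ)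
    (hn1 : 1 ≤ n) (hn : n % 3 ≠ 2) :
    ∃ S : Finset (L × L), (2 * n - 1) * d ^ n ≤ S.card + (2 * n - 1) * (2 * d ^ ((n + 1) / 3)) ∧
      ∀ P ∈ S, minimalPeriod (fun P : L × L => (P.2, aeval P.2 F - P.1)) P = 2 * n - 1 ∧
        Module.finrank K (IntermediateField.adjoin K {P.1, P.2}) ≤ d ^ n := by
  set R := (v.valuation K).valuationSubring with hR
  have hlift : F ∈ lifts (algebraMap R K) := by
    rw [lifts_iff_coeff_lifts]
    intro i
    exact ⟨⟨F.coeff i, h1 i⟩, rfl⟩
  obtain ⟨G, hG⟩ := (mem_lifts _).1 hlift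
  have hinj : Function.Injective (algebraMap R K) := IsFractionRing.injective R K
  have hGd : G.natDegree = d := by
    rw [← hFd, ← hG, natDegree_map_eq_of_injective hinj]
  have hlc : algebraMap R K G.leadingCoeff = F.leadingCoeff := by
    rw [← hG, leadingCoeff_map_of_injective hinj]
  have hunit : IsUnit G.leadingCoeff := by
    have h4 : (F.leadingCoeff)⁻¹ ∈ R := by
      show v.valuation K _ ≤ 1
      rw [map_inv₀, h2, inv_one]
    have h5 : F.leadingCoeff ≠ 0 := by
      intro h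
      rw [h, map_zero] at h2
      exact zero_ne_one h2
    refine IsUnit.of_mul_eq_one (⟨(F.leadingCoeff)⁻¹, h4⟩ : R) ?_
    apply hinj
    rw [map_mul, hlc, map_one]
    exact mul_inv_cancel₀ h5
  -- the ideal generated by the coefficients of `G' - 1`
  set I : Ideal R := Ideal.span ((fun i => (derivative G - 1).coeff i) ''
    (Finset.range ((derivative G - 1).natDegree + 1) : Set ℕ)) with hI
  have hfg : I.FG := Submodule.fg_span ((Finset.finite_toSet _).image _)
  have hprin : I.IsPrincipal := IsBezout.isPrincipal_of_FG I hfg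
  obtain ⟨p, hp⟩ := hprin.principal
  have hlt : ∀ i, (derivative G - 1).coeff i ∈ IsLocalRing.maximalIdeal R := by
    intro i
    rw [IsLocalRing.mem_maximalIdeal, mem_nonunits_iff]
    intro hu
    have h4 : algebraMap R K ((derivative G - 1).coeff i) = (derivative F - 1).coeff i := by
      rw [← coeff_map, Polynomial.map_sub, ← derivative_map, hG, Polynomial.map_one]
    obtain ⟨w, hw⟩ := hu
    have h5 : v.valuation K (algebraMap R K (w : R)) < 1 := by
      rw [hw, h4]; exact h3 i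
    have h6 : v.valuation K (algebraMap R K ((w⁻¹ : Rˣ) : R)) ≤ 1 := ((w⁻¹ : Rˣ) : R).2
    have h7 : v.valuation K (algebraMap R K (w : R)) * v.valuation K (algebraMap R K ((w⁻¹ : Rˣ) : R)) = 1 := by
      rw [← map_mul, ← map_mul, Units.mul_inv, map_one, map_one]
    have h8 : v.valuation K (algebraMap R K (w : R)) * v.valuation K (algebraMap R K ((w⁻¹ : Rˣ) : R)) < 1 :=
      mul_lt_one_of_lt_of_le h5 h6
    exact absurd h7 h8.ne
  have hIle : I ≤ IsLocalRing.maximalIdeal R := by
    rw [hI, Ideal.span_le]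
    rintro x ⟨i, -, rfl⟩
    exact hlt i
  have hpu : ¬ IsUnit p := by
    intro hu
    have h4 : p ∈ I := by rw [hp]; exact Submodule.mem_span_singleton_self p
    have h5 := hIle h4
    rw [IsLocalRing.mem_maximalIdeal, mem_nonunits_iff] at h5
    exact h5 hu
  have hdvd : C p ∣ derivative G - 1 := by
    rw [C_dvd_iff_dvd_coeff]
    intro i
    by_cases hi : i ∈ Finset.range ((derivative G - 1).natDegree + 1)
    · have h4 : (derivative G - 1).coeff i ∈ I := Ideal.subset_span ⟨i, hi, rfl⟩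
      rw [hp] at h4
      exact Ideal.mem_span_singleton.1 h4
    · rw [Finset.mem_range, not_lt] at hi
      rw [coeff_eq_zero_of_natDegree_lt (by omega)]
      exact dvd_zero p
  letI : Algebra R L := ((algebraMap K L).comp (algebraMap R K)).toAlgebra
  haveI : IsScalarTower R K L := IsScalarTower.of_algebraMap_eq fun x => rfl
  obtain ⟨S, hS1, hS2⟩ := general (K := K) (L := L) hunit hd hGd hpu hdvd n hn1 hn
  have hfun : (hm G : L × L → L × L) = fun P : L × L => (P.2, aeval P.2 F - P.1) := by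
    funext P
    show (P.2, aeval P.2 G - P.1) = _
    rw [← hG, aeval_map_algebraMap]
  rw [hfun] at hS2
  exact ⟨S, hS1, hS2⟩

/-- a finite place above a prime number -/
theorem exists_place (K : Type*) [Field K] [NumberField K] (p : ℕ) (hp : p.Prime) :
    ∃ v : HeightOneSpectrum (𝓞 K), ∀ a : ℤ, v.valuation K (a : K) ≤ 1 ∧
      (v.valuation K (a : K) < 1 ↔ (p : ℤ) ∣ a) := by
  have hnu : ¬ IsUnit (p : 𝓞 K) := by
    intro hu
    obtain ⟨w, hw⟩ := hu.exists_right_inv
    have hw2 : (p : K) * (w : K) = 1 := by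
      have := congrArg (algebraMap (𝓞 K) K) hw
      simpa using this
    have hp0 : (p : K) ≠ 0 := by exact_mod_cast hp.ne_zero
    have hw3 : (w : K) = algebraMap ℚ K ((1 : ℚ) / p) := by
      rw [map_div₀, map_one, map_natCast, eq_div_iff hp0, mul_comm]
      exact hw2
    have hint : IsIntegral ℤ (w : K) := w.2
    rw [hw3] at hint
    have hint2 : IsIntegral ℤ ((1 : ℚ) / p) :=
      (isIntegral_algebraMap_iff (algebraMap ℚ K).injective).1 hint
    obtain ⟨z, hz⟩ := IsIntegrallyClosed.isIntegral_iff.1 hint2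
    have hpq : (p : ℚ) ≠ 0 := by exact_mod_cast hp.ne_zero
    have hz2 : (z : ℚ) * p = 1 := by
      have : (z : ℚ) = 1 / p := by simpa using hz
      rw [this]; field_simp
    have hz3 : z * (p : ℤ) = 1 := by exact_mod_cast hz2
    have hdvd : (p : ℤ) ∣ 1 := ⟨z, by linarith⟩
    have := Int.natAbs_dvd_natAbs.2 hdvd
    simp at this
    exact hp.one_lt.ne' this
  obtain ⟨M, hM, hle⟩ := Ideal.exists_le_maximal (Ideal.span {(p : 𝓞 K)})
    (by rw [Ne, Ideal.span_singleton_eq_top]; exact hnu)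
  have hpM : (p : 𝓞 K) ∈ M := hle (Ideal.mem_span_singleton_self _)
  have hMb : M ≠ ⊥ := by
    rintro rfl
    rw [Ideal.mem_bot] at hpM
    have : (p : 𝓞 K) ≠ 0 := by exact_mod_cast hp.ne_zero
    exact this hpM
  refine ⟨⟨M, hM.isPrime, hMb⟩, ?_⟩
  intro a
  set v : HeightOneSpectrum (𝓞 K) := ⟨M, hM.isPrime, hMb⟩ with hv
  have hcast : ((a : ℤ) : K) = algebraMap (𝓞 K) K (a : 𝓞 K) := by simp
  refine ⟨?_, ?_⟩
  · rw [hcast]; exact v.valuation_le_one (a : 𝓞 K)
  · rw [hcast]
    have h1 : v.valuation K (algebraMap (𝓞 K) K (a : 𝓞 K)) < 1 ↔ (a : 𝓞 K) ∈ v.asIdeal :=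
      v.valuation_lt_one_iff_mem (a : 𝓞 K)
    rw [h1]
    show (a : 𝓞 K) ∈ M ↔ _
    constructor
    · intro ha
      by_contra hcon
      have hcop : IsCoprime (p : ℤ) a :=
        ((Nat.prime_iff_prime_int.1 hp).irreducible.coprime_iff_not_dvd).2 hcon
      obtain ⟨x, y, hxy⟩ := hcop
      apply hM.ne_top
      rw [Ideal.eq_top_iff_one]
      have h2 : (1 : 𝓞 K) = (x : 𝓞 K) * (p : 𝓞 K) + (y : 𝓞 K) * (a : 𝓞 K) := by
        have := congrArg (Int.cast : ℤ → 𝓞 K) hxy
        push_cast at this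
        exact this.symm
      rw [h2]
      exact M.add_mem (M.mul_mem_left _ hpM) (M.mul_mem_left _ ha)
    · rintro ⟨b, rfl⟩
      push_cast
      exact M.mul_mem_right _ hpM

/-- integral polynomials -/
theorem general_int {K L : Type*} [Field K] [NumberField K] [Field L] [Algebra K L] [IsAlgClosed L]
    (p : ℕ) (hp : p.Prime) (F : ℤ[X]) {d : ℕ} (hd : 2 ≤ d) (hFd : F.natDegree = d)
    (h2 : ¬ (p : ℤ) ∣ F.leadingCoeff) (h3 : ∀ i, (p : ℤ) ∣ (derivative F - 1).coeff i) (n : ℕ)
    (hn1 : 1 ≤ n) (hn : n % 3 ≠ 2) :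
    ∃ S : Finset (L × L), (2 * n - 1) * d ^ n ≤ S.card + (2 * n - 1) * (2 * d ^ ((n + 1) / 3)) ∧
      ∀ P ∈ S, minimalPeriod (fun P : L × L => (P.2, aeval P.2 (F.map (Int.castRingHom K)) - P.1)) P
        = 2 * n - 1 ∧ Module.finrank K (IntermediateField.adjoin K {P.1, P.2}) ≤ d ^ n := by
  obtain ⟨v, hv⟩ := exists_place K p hp
  have hinj : Function.Injective (Int.castRingHom K) := (Int.castRingHom K).injective_int
  apply general_val v (F.map (Int.castRingHom K)) hd
  · rw [natDegree_map_eq_of_injective hinj, hFd]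
  · intro i
    rw [coeff_map]
    exact (hv _).1
  · rw [leadingCoeff_map_of_injective hinj]
    refine le_antisymm (hv _).1 ?_
    rw [← not_lt]
    exact fun h => h2 ((hv _).2.1 h)
  · intro i
    have h4 : (derivative (F.map (Int.castRingHom K)) - 1).coeff i =
        (((derivative F - 1).coeff i : ℤ) : K) := by
      rw [derivative_map]
      have : (1 : K[X]) = (1 : ℤ[X]).map (Int.castRingHom K) := by simp
      rw [this, ← Polynomial.map_sub, coeff_map]
      rfl
    rw [h4]
    exact (hv _).2.2 (h3 i)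
  · exact hn1
  · exact hn

end Pool.Agent.J4H36.HB
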